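import Pool.Agent.QSX.StmtsW

/-!
# Squad QSX, row GGX
-/

set_option autoImplicit false

namespace Pool.Agent.QSX.H8

open Matrix Finset Pool.Agent.QSX

theorem ud_zero (m : ℕ) : ud (0 : Fin m → ℝ) = 1 := by
  apply Units.ext
  show diagonal (fun i => Real.exp ((0 : Fin m → ℝ) i)) = 1
  have h : (fun i : Fin m => Real.exp ((0 : Fin m → ℝ) i)) = fun _ => 1 := by
    funext i
    simp
  rw [h, diagonal_one]

/-- GGX -/
theorem ggx (hg : GnxStmt) : GgxStmt := by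
  intro X hX G hG n hn
  obtain ⟨x, hx, rfl⟩ := hg X hX n hn
  refine (hG _).2 ⟨((⟨x, hx⟩, 0) : X.n × X.b), ?_⟩
  show ue x = ue x * ud ((0 : X.b) : Fin X.m → ℝ)
  rw [Submodule.coe_zero, ud_zero, mul_one]

end Pool.Agent.QSX.H8
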