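import Pool.Agent.QSX.StmtsM

/-!
# Squad QSX, row HIL: the Hilbert space of bounded functions
-/

set_option autoImplicit false

namespace Pool.Agent.QSX.H8

open Filter Topology Pool.Agent.QSX

/-- Completion of a semi inner product space with isometric operators. -/
theorem hil_aux (E : Type) [SeminormedAddCommGroup E] [InnerProductSpace ℝ E] (G : Type) [Group G]
    (T : G → E →ₗ[ℝ] E) (hn : ∀ u x, ‖T u x‖ = ‖x‖) (hm : ∀ u v x, T (u * v) x = T u (T v x)) :
    ∃ (Hs : Type) (_ : NormedAddCommGroup Hs) (_ : InnerProductSpace ℝ Hs) (_ : CompleteSpace Hs)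
      (j : E →ₗ[ℝ] Hs) (R : G → Hs →ₗᵢ[ℝ] Hs),
      (∀ p : E, ‖j p‖ = ‖p‖) ∧
      (∀ (u : G) (p : E), R u (j p) = j (T u p)) ∧
      ∀ (u v : G) (z : Hs), R (u * v) z = R u (R v z) := by
  let Hs := UniformSpace.Completion E
  let e : E →L[ℝ] Hs := UniformSpace.Completion.toComplL
  let TL : G → E →L[ℝ] E := fun u =>
    (⟨T u, hn u⟩ : E →ₗᵢ[ℝ] E).toContinuousLinearMap
  have hd : DenseRange e := UniformSpace.Completion.denseRange_coe
  have hu : IsUniformInducing e := UniformSpace.Completion.isUniformInducing_coe E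
  let S : G → Hs →L[ℝ] Hs := fun u => (e.comp (TL u)).extend e
  have hS : ∀ u x, S u (e x) = e (T u x) := fun u x =>
    ContinuousLinearMap.extend_eq (e.comp (TL u)) hd hu x
  have he : ∀ x : E, ‖e x‖ = ‖x‖ := fun x => UniformSpace.Completion.norm_coe x
  have hSn : ∀ u (z : Hs), ‖S u z‖ = ‖z‖ := by
    intro u z
    refine hd.induction_on (p := fun z => ‖S u z‖ = ‖z‖) z ?_ ?_
    · exact isClosed_eq ((S u).continuous.norm) continuous_norm
    · intro x
      rw [hS, he, he, hn]
  refine ⟨Hs, inferInstance, inferInstance, inferInstance, e.toLinearMap,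
    fun u => ⟨(S u).toLinearMap, hSn u⟩, he, hS, ?_⟩
  intro u v z
  show S (u * v) z = S u (S v z)
  refine hd.induction_on (p := fun z => S (u * v) z = S u (S v z)) z ?_ ?_
  · exact isClosed_eq (S (u * v)).continuous ((S u).continuous.comp (S v).continuous)
  · intro x
    rw [hS, hS, hS, hm]

theorem hil_core (E : Type) [AddCommGroup E] [Module ℝ E] (c : PreInnerProductSpace.Core ℝ E)
    (G : Type) [Group G]
    (T : G → E →ₗ[ℝ] E) (hn : ∀ u x, c.inner (T u x) (T u x) = c.inner x x)
    (hm : ∀ u v x, T (u * v) x = T u (T v x)) :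
    ∃ (Hs : Type) (_ : NormedAddCommGroup Hs) (_ : InnerProductSpace ℝ Hs) (_ : CompleteSpace Hs)
      (j : E →ₗ[ℝ] Hs) (R : G → Hs →ₗᵢ[ℝ] Hs),
      (∀ p : E, ‖j p‖ ^ 2 = c.inner p p) ∧
      (∀ (u : G) (p : E), R u (j p) = j (T u p)) ∧
      ∀ (u v : G) (z : Hs), R (u * v) z = R u (R v z) := by
  let _ : SeminormedAddCommGroup E := @InnerProductSpace.Core.toSeminormedAddCommGroup ℝ E _ _ _ c
  let _ : InnerProductSpace ℝ E := InnerProductSpace.ofCore c
  have hnorm : ∀ x : E, ‖x‖ ^ 2 = c.inner x x := fun x =>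
    InnerProductSpace.norm_sq_eq_re_inner (𝕜 := ℝ) x
  obtain ⟨Hs, i1, i2, i3, j, R, h1, h2, h3⟩ := hil_aux E G T (fun u x => by
    have h : ‖T u x‖ ^ 2 = ‖x‖ ^ 2 := by rw [hnorm, hnorm, hn]
    exact (pow_left_inj₀ (norm_nonneg _) (norm_nonneg _) two_ne_zero).1 h) hm
  exact ⟨Hs, i1, i2, i3, j, R, fun p => by rw [h1, hnorm], h2, h3⟩

theorem hil : HilStmt := by
  intro G _ M hM V _ _
  have bd : ∀ p q : BF G V, ∃ C : ℝ, ∀ x, |inner ℝ ((p : G → V) x) ((q : G → V) x)| ≤ C := by
    intro p q
    obtain ⟨C, hC⟩ := p.2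
    obtain ⟨D, hD⟩ := q.2
    refine ⟨C * D, fun x => (abs_real_inner_le_norm _ _).trans ?_⟩
    exact mul_le_mul (hC x) (hD x) (norm_nonneg _) ((norm_nonneg _).trans (hC x))
  let c : PreInnerProductSpace.Core ℝ (BF G V) :=
    { inner := fun p q => M (fun x => inner ℝ ((p : G → V) x) ((q : G → V) x))
      conj_inner_symm := by
        intro p q
        show M _ = M _
        congr 1
        funext x
        exact real_inner_comm _ _
      re_inner_nonneg := by
        intro p
        show 0 ≤ M _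
        exact hM.pos _ (bd p p) (fun x => real_inner_self_nonneg)
      add_left := by
        intro p q r
        show M _ = M _ + M _
        rw [← hM.add _ _ (bd p r) (bd q r)]
        congr 1
        funext x
        exact inner_add_left _ _ _
      smul_left := by
        intro p q r
        show M _ = r * M _
        rw [← hM.smul _ _ (bd p q)]
        congr 1
        funext x
        exact real_inner_smul_left _ _ _ }
  obtain ⟨Hs, i1, i2, i3, j, R, h1, h2, h3⟩ := hil_core (BF G V) c G (fun u => shift u)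
    (fun u p => hM.inv (fun x => inner ℝ ((p : G → V) x) ((p : G → V) x)) u (bd p p))
    (fun u v p => by
      apply Subtype.ext
      funext x
      show (p : G → V) (x * (u * v)) = (p : G → V) (x * u * v)
      rw [mul_assoc])
  refine ⟨Hs, i1, i2, i3, j, R, ?_, h2, h3⟩
  intro p
  rw [h1]
  show M _ = M _
  congr 1
  funext x
  exact real_inner_self_eq_norm_sq _

end Pool.Agent.QSX.H8
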