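import Pool.Agent.QSX.StmtsB
import Pool.Agent.QSX.StmtsG

/-!
# Squad QSX, row NFR
-/

set_option autoImplicit false

namespace Pool.Agent.QSX.H8

open Matrix Finset Pool.Agent.QSX

theorem part_pos {V : Type} {m : ℕ} {F : Type} [Zero F] (P : V → Fin m → ℝ) (ρ : V → ℝ)
    (x : Matrix (Fin m) (Fin m) F) (i l : Fin m) (h : ∀ a, P a i - P a l = ρ a) :
    part P ρ x i l = x i l := by
  classical
  exact if_pos h

theorem part_neg {V : Type} {m : ℕ} {F : Type} [Zero F] (P : V → Fin m → ℝ) (ρ : V → ℝ)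
    (x : Matrix (Fin m) (Fin m) F) (i l : Fin m) (h : ¬ ∀ a, P a i - P a l = ρ a) :
    part P ρ x i l = 0 := by
  classical
  exact if_neg h

/-- NFR -/
theorem nfr (hp : PrtStmt) : NfrStmt := by
  intro X Y F _ _ P hP ρ A hA hs
  obtain ⟨d, c, g, hg⟩ := (Submodule.mem_span_set' (R := F)).1 hA
  have hc : ∀ r : Fin d, ∃ y ∈ Y.n, y.map (algebraMap ℝ F) = (g r : Matrix _ _ F) := fun r => (g r).2
  choose y0 hy0 hy1 using hc
  have hnk : ∀ r, y0 r ∈ Y.nk 0 := fun r => ⟨hy0 r, fun i l hl => Y.su _ (hy0 r) i l (by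
    rw [Fin.le_def]
    omega)⟩
  refine ⟨d, fun r => part P ρ (y0 r), c, fun r => (hp Y X.b P hP ρ 0 (y0 r) (hnk r)).1, ?_, ?_⟩
  · intro r i k hne
    by_contra hcon
    exact hne (part_neg _ _ _ i k hcon)
  · ext i k
    rw [Matrix.sum_apply]
    by_cases h : ∀ a : X.b, P a i - P a k = ρ a
    · rw [← hg, Matrix.sum_apply]
      refine Finset.sum_congr rfl fun r _ => ?_
      rw [Matrix.smul_apply, Matrix.smul_apply, ← hy1 r, Matrix.map_apply, Matrix.map_apply]
      exact congrArg (fun t : ℝ => c r • algebraMap ℝ F t) (part_pos P ρ (y0 r) i k h).symm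
    · have hA0 : A i k = 0 := by
        by_contra hne
        exact h (hs i k hne)
      rw [hA0]
      symm
      refine Finset.sum_eq_zero fun r _ => ?_
      rw [Matrix.smul_apply, Matrix.map_apply]
      refine (congrArg (fun t : ℝ => c r • algebraMap ℝ F t) (part_neg P ρ (y0 r) i k h)).trans ?_
      show c r • algebraMap ℝ F 0 = 0
      rw [map_zero, smul_zero]

end Pool.Agent.QSX.H8
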