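import Pool.Agent.QSX.StmtsB

/-!
# Squad QSX, row PMU
-/

set_option autoImplicit false

namespace Pool.Agent.QSX.H8

open Matrix Finset Pool.Agent.QSX

/-- PMU -/
theorem pmu : PmuStmt := by
  classical
  intro V m F _ P r r' κ κ' A B hind hA hB
  ext i k
  rw [Matrix.mul_apply]
  show (if ∀ a, P a i - P a k = κ * r a + κ' * r' a then (A * B) i k else 0) =
    ∑ j, (if ∀ a, P a i - P a j = κ * r a then A i j else 0) *
      (if ∀ a, P a j - P a k = κ' * r' a then B j k else 0)
  by_cases h : ∀ a, P a i - P a k = κ * r a + κ' * r' a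
  · rw [if_pos h, Matrix.mul_apply]
    refine Finset.sum_congr rfl fun j _ => ?_
    by_cases hAij : A i j = 0
    · rw [hAij, zero_mul]
      split_ifs <;> simp
    by_cases hBjk : B j k = 0
    · rw [hBjk, mul_zero]
      split_ifs <;> simp
    obtain ⟨s, hs⟩ := hA i j hAij
    obtain ⟨t, ht⟩ := hB j k hBjk
    obtain ⟨e1, e2⟩ := hind s t κ κ' (fun a => by
      have h1 := h a
      have h2 := hs a
      have h3 := ht a
      linarith)
    subst e1
    subst e2
    rw [if_pos hs, if_pos ht]
  · rw [if_neg h]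
    symm
    refine Finset.sum_eq_zero fun j _ => ?_
    by_cases h1 : ∀ a, P a i - P a j = κ * r a
    · by_cases h2 : ∀ a, P a j - P a k = κ' * r' a
      · exact absurd (fun a => by have e1 := h1 a; have e2 := h2 a; linarith) h
      · rw [if_neg h2, mul_zero]
    · rw [if_neg h1, zero_mul]

end Pool.Agent.QSX.H8
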